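import Pool.Agent.K3h37.RS.Low.Stm

/-!
# Bricks LIM and PZ (limsup of events, second moment)
-/

set_option autoImplicit false

namespace Pool.Agent.K3h76.RS

open MeasureTheory Filter Topology

theorem t_LIM : Pool.Agent.K3h37.RS.Low.S_LIM := by
  intro Ω _ μ _ B c hc hB k₀ h
  let D : ℕ → Set Ω := fun n => ⋃ k, ⋃ (_ : n ≤ k), B k
  have hD : ∀ n, MeasurableSet (D n) := fun n =>
    MeasurableSet.iUnion fun k => MeasurableSet.iUnion fun _ => hB k
  have hanti : Antitone D := by
    intro m n hmn ω hω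
    simp only [D, Set.mem_iUnion] at hω ⊢
    obtain ⟨k, hk, hk'⟩ := hω
    exact ⟨k, hmn.trans hk, hk'⟩
  have hle : ∀ n, ENNReal.ofReal c ≤ μ (D n) := by
    intro n
    have h1 := h (max n k₀) (le_max_right _ _)
    have h2 : B (max n k₀) ⊆ D n := by
      intro ω hω
      simp only [D, Set.mem_iUnion]
      exact ⟨_, le_max_left _ _, hω⟩
    refine le_trans ?_ (measure_mono h2)
    rw [← ofReal_measureReal]
    exact ENNReal.ofReal_le_ofReal h1
  have ht := tendsto_measure_iInter_atTop (μ := μ) (s := D)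
    (fun n => (hD n).nullMeasurableSet) hanti ⟨0, measure_ne_top μ _⟩
  have h3 : ENNReal.ofReal c ≤ μ (⋂ n, D n) := ge_of_tendsto' ht hle
  have h4 : {ω | ∀ n : ℕ, ∃ k, n ≤ k ∧ ω ∈ B k} = ⋂ n, D n := by
    ext ω
    simp only [D, Set.mem_ofPred_eq, Set.mem_iInter, Set.mem_iUnion, exists_prop]
  rw [h4]
  exact (ENNReal.ofReal_pos.2 hc).trans_le h3

theorem t_PZ : Pool.Agent.K3h37.RS.Low.S_PZ := by
  intro Ω _ μ _ α F E hE
  classical
  set U : Set Ω := ⋃ x ∈ F, E x with hU
  have hUm : MeasurableSet U := Finset.measurableSet_biUnion F hE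
  let I : Set Ω → Ω → ℝ := fun A => A.indicator 1
  have hI : ∀ A, MeasurableSet A → Integrable (I A) μ := fun A hA =>
    (integrable_const (1 : ℝ)).indicator hA
  have hint : ∀ A, MeasurableSet A → ∫ ω, I A ω ∂μ = μ.real A := fun A hA =>
    integral_indicator_one hA
  have hmul : ∀ (A B : Set Ω) (ω : Ω), I (A ∩ B) ω = I A ω * I B ω := by
    intro A B ω
    simp only [I, Set.inter_indicator_one, Pi.mul_apply]
  set a : ℝ := ∑ x ∈ F, μ.real (E x) with ha
  set b : ℝ := ∑ x ∈ F, ∑ y ∈ F, μ.real (E x ∩ E y) with hb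
  have key : ∀ t : ℝ, 0 ≤ μ.real U * (t * t) + (-2 * a) * t + b := by
    intro t
    have hpt : ∀ ω, (∑ x ∈ F, I (E x) ω - t * I U ω) ^ 2 =
        (t * t) * I U ω + (-2 * t) * ∑ x ∈ F, I (E x) ω +
          ∑ x ∈ F, ∑ y ∈ F, I (E x ∩ E y) ω := by
      intro ω
      have h1 : (∑ x ∈ F, I (E x) ω) * I U ω = ∑ x ∈ F, I (E x) ω := by
        rw [Finset.sum_mul]
        refine Finset.sum_congr rfl fun x hx => ?_
        rw [← hmul]
        congr 1
        exact Set.inter_eq_left.2 (Set.subset_biUnion_of_mem (u := E) hx)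
      have h2 : I U ω * I U ω = I U ω := by
        rw [← hmul, Set.inter_self]
      have h3 : ∑ x ∈ F, ∑ y ∈ F, I (E x ∩ E y) ω =
          (∑ x ∈ F, I (E x) ω) * ∑ y ∈ F, I (E y) ω := by
        rw [Finset.sum_mul_sum]
        refine Finset.sum_congr rfl fun x _ => Finset.sum_congr rfl fun y _ => hmul _ _ _
      rw [h3]
      linear_combination (-2 * t) * h1 + (t * t) * h2
    have h0 : 0 ≤ ∫ ω, (∑ x ∈ F, I (E x) ω - t * I U ω) ^ 2 ∂μ :=
      integral_nonneg fun ω => sq_nonneg _
    have i1 : Integrable (fun ω => (t * t) * I U ω) μ := (hI U hUm).const_mul _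
    have i2 : Integrable (fun ω => (-2 * t) * ∑ x ∈ F, I (E x) ω) μ :=
      (integrable_finsetSum F fun x hx => hI _ (hE x hx)).const_mul _
    have i3 : Integrable (fun ω => ∑ x ∈ F, ∑ y ∈ F, I (E x ∩ E y) ω) μ :=
      integrable_finsetSum F fun x hx => integrable_finsetSum F fun y hy =>
        hI _ ((hE x hx).inter (hE y hy))
    have i12 : Integrable (fun ω => (t * t) * I U ω + (-2 * t) * ∑ x ∈ F, I (E x) ω) μ :=
      i1.add i2
    simp_rw [hpt] at h0
    rw [integral_add i12 i3, integral_add i1 i2, integral_const_mul, integral_const_mul,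
      hint U hUm, integral_finsetSum F fun x hx => hI _ (hE x hx),
      integral_finsetSum F fun x hx => integrable_finsetSum F fun y hy =>
        hI _ ((hE x hx).inter (hE y hy))] at h0
    have e1 : ∑ x ∈ F, ∫ ω, I (E x) ω ∂μ = a :=
      Finset.sum_congr rfl fun x hx => hint _ (hE x hx)
    have e2 : ∑ x ∈ F, ∫ ω, ∑ y ∈ F, I (E x ∩ E y) ω ∂μ = b := by
      refine Finset.sum_congr rfl fun x hx => ?_
      rw [integral_finsetSum F fun y hy => hI _ ((hE x hx).inter (hE y hy))]
      exact Finset.sum_congr rfl fun y hy => hint _ ((hE x hx).inter (hE y hy))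
    rw [e1, e2] at h0
    linarith
  have h := discrim_le_zero key
  unfold discrim at h
  nlinarith

end Pool.Agent.K3h76.RS
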